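import Mathlib
import Pool.Agent.R776.Transl6

set_option autoImplicit false

open MeasureTheory Set Metric

namespace Pool.Agent.Results.MP_182b9e_gt.ExistsIffOrigin

/-- Euclidean `n`-space. -/
abbrev E (n : ℕ) := EuclideanSpace ℝ (Fin n)

variable {n : ℕ}

/-- Support function `h_K(u) = max {⟨y, u⟩ : y ∈ K}` of a compact set `K`. -/
noncomputable def supportFn (K : Set (E n)) (u : E n) : ℝ :=
  sSup ((fun y : E n => @inner ℝ (E n) _ y u) '' K)

/-- Mean width `w(K) = 2 / (n κ_n) * ∫_{S^{n-1}} h_K(u) du`, where `κ_n` is the volume of the unit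
ball and `du` is the surface measure of the unit sphere (`volume.toSphere`). -/
noncomputable def meanWidth (K : Set (E n)) : ℝ :=
  2 / (n * (volume (ball (0 : E n) 1)).toReal) *
    ∫ u : sphere (0 : E n) 1, supportFn K u ∂(volume : Measure (E n)).toSphere

/-- The class `𝓑`: for `b = false` all nonempty compact convex subsets of `ℝ^n`, for `b = true`
those with nonempty interior (convex bodies). -/
def InClass (b : Bool) (K : Set (E n)) : Prop :=
  K.Nonempty ∧ IsCompact K ∧ Convex ℝ K ∧ (b = true → (interior K).Nonempty)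

/-- `K` is `H`-symmetric: the reflection `x ↦ 2 (x|H) - x` in `H` maps `K` onto `K`. -/
def IsSymm (H : Submodule ℝ (E n)) (K : Set (E n)) : Prop := H.reflection '' K = K

/-- The properties asked for in Q1: `D` maps `𝓑` to its `H`-symmetric members, is monotonic,
preserves the mean width and fixes every `H`-symmetric member of `𝓑`, but is not invariant under
translations orthogonal to `H` of `H`-symmetric sets. -/
structure IsExotic (b : Bool) (H : Submodule ℝ (E n)) (D : Set (E n) → Set (E n)) : Prop where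
  symmetrization : ∀ K, InClass b K → InClass b (D K) ∧ IsSymm H (D K)
  monotonic : ∀ K L, InClass b K → InClass b L → K ⊆ L → D K ⊆ D L
  width : ∀ K, InClass b K → meanWidth (D K) = meanWidth K
  fixes : ∀ K, InClass b K → IsSymm H K → D K = K
  notInvariant : ¬ ∀ K, InClass b K → IsSymm H K → ∀ y ∈ Hᗮ,
    D ((fun x => x + y) '' K) = D K

/-- Complete answer to Q1: for `0 ≤ i ≤ n - 2`, an `i`-dimensional subspace `H` of `ℝ^n` and either
class `𝓑`, a symmetrization with the required properties exists if and only if `i = 0`. -/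
theorem result (n i : ℕ) (hi : i + 2 ≤ n) (H : Submodule ℝ (E n))
    (hH : Module.finrank ℝ H = i) (b : Bool) :
    (∃ D : Set (E n) → Set (E n), IsExotic b H D) ↔ i = 0 := by
  obtain ⟨c0, hc0, hV⟩ := Pool.Agent.R776.MeanW.V_eq (n := n) (by omega)
  have : Nonempty (Fin n) := ⟨⟨0, by omega⟩⟩
  have hball : 0 < (volume (ball (0 : E n) 1)).toReal :=
    ENNReal.toReal_pos (measure_ball_pos volume 0 one_pos).ne' measure_ball_lt_top.ne
  have hn0 : (0:ℝ) < n := by
    have : 0 < n := by omega
    exact_mod_cast this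
  have hfac : (0:ℝ) < 2 / (n * (volume (ball (0 : E n) 1)).toReal) := by positivity
  constructor
  · rintro ⟨D, hD⟩
    by_contra hi0
    have hgood : Pool.Agent.R776.Transl.Good b H D := by
      refine ⟨fun K hK => (hD.symmetrization K hK).1, fun K hK => (hD.symmetrization K hK).2,
        hD.monotonic, fun K hK => ?_, hD.fixes⟩
      have h1 := hD.width K hK
      unfold meanWidth supportFn at h1
      have h2 := mul_left_cancel₀ hfac.ne' h1
      rw [hV, hV]
      unfold Pool.Agent.S13718.supp
      rw [h2]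
    have hex : ∃ p ∈ H, p ≠ 0 := by
      have : H ≠ ⊥ := by
        intro h
        rw [h, finrank_bot] at hH
        exact hi0 hH.symm
      obtain ⟨p, hp, hp0⟩ := Submodule.exists_mem_ne_zero_of_ne_bot this
      exact ⟨p, hp, hp0⟩
    apply hD.notInvariant
    intro K hK hs y hy
    rw [hD.fixes K hK hs]
    exact hgood.main hex hK hs hy
  · intro hi0
    have hbot : H = ⊥ := Submodule.finrank_eq_zero.1 (by rw [hH, hi0])
    subst hbot
    obtain ⟨D, h1, h2, h3, h4, x, hx⟩ := Pool.Agent.S13718.general n (by omega) b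
    have hsymm : ∀ K : Set (E n), IsSymm (⊥ : Submodule ℝ (E n)) K → ∀ x ∈ K, -x ∈ K := by
      intro K hK x hx
      have h' : (⊥ : Submodule ℝ (E n)).reflection x ∈ K := by
        have : (⊥ : Submodule ℝ (E n)).reflection x ∈
            (⊥ : Submodule ℝ (E n)).reflection '' K := ⟨x, hx, rfl⟩
        rwa [show (⊥ : Submodule ℝ (E n)).reflection '' K = K from hK] at this
      simpa using h'
    have hsymm' : ∀ K : Set (E n), (∀ x ∈ K, -x ∈ K) → IsSymm (⊥ : Submodule ℝ (E n)) K := by
      intro K hK
      apply Pool.Agent.R776.Transl.symm_of_maps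
      intro x hx
      simpa using hK x hx
    refine ⟨D, ⟨?_, ?_, ?_, ?_, ?_⟩⟩
    · rintro K ⟨hne, hc, hconv, hint⟩
      obtain ⟨⟨g1, g2, g3, g4⟩, g5⟩ := h1 K ⟨hc, hconv, hne, hint⟩
      exact ⟨⟨g3, g1, g2, g4⟩, hsymm' _ g5⟩
    · rintro K L ⟨hne, hc, hconv, hint⟩ ⟨hne', hc', hconv', hint'⟩ h
      exact h2 K L ⟨hc, hconv, hne, hint⟩ ⟨hc', hconv', hne', hint'⟩ h
    · rintro K ⟨hne, hc, hconv, hint⟩
      have h5 := h3 K ⟨hc, hconv, hne, hint⟩
      have h6 : Pool.Agent.S13718.V (D K) = Pool.Agent.S13718.V K := h5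
      rw [hV, hV] at h6
      have h7 := mul_left_cancel₀ hc0.ne' h6
      unfold meanWidth supportFn
      unfold Pool.Agent.S13718.supp at h7
      rw [h7]
    · rintro K ⟨hne, hc, hconv, hint⟩ hs
      exact h4 K ⟨hc, hconv, hne, hint⟩ (hsymm K hs)
    · intro hinv
      apply hx
      have hB : InClass b (closedBall (0 : E n) 1) := by
        refine ⟨⟨0, by simp⟩, isCompact_closedBall 0 1, convex_closedBall 0 1, fun _ => ?_⟩
        rw [interior_closedBall _ one_ne_zero]
        exact ⟨0, by simp⟩
      have hBs : ∀ x ∈ closedBall (0 : E n) 1, -x ∈ closedBall (0 : E n) 1 := by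
        intro x hx
        simpa using hx
      rw [hinv _ hB (hsymm' _ hBs) x (by simp)]
      exact h4 _ ⟨hB.2.1, hB.2.2.1, hB.1, hB.2.2.2⟩ hBs

end Pool.Agent.Results.MP_182b9e_gt.ExistsIffOrigin
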